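import Pool.Agent.T2h89.CL.B3
import Pool.Agent.N681.AI.B8
import Pool.Agent.Results.MP_fd8838_nt.LawOfMinima

/-!
# Möller's maps: central limit theorem for the time at which the orbits reach their minima

Let `ρ = log d - ((d - 1) / d) log m > 0`. For every set `A` of positive integers the positive integers whose `T`-orbit has
its minimum in `A` have a natural density `δ(A)`. The first time `k` at which the orbit of `n` is at its minimum satisfies
a central limit theorem on each of these sets, with mean `log n / ρ` and standard deviation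
`(√(d-1) log m / (d ρ^(3/2))) √(log n)`; the number of steps of the `H`-orbit (the number of multiplications) satisfies one
with mean `((d-1) / (d ρ)) log n` and standard deviation `(√(d-1) log d / (d ρ^(3/2))) √(log n)`. Moreover the time `k` is
equidistributed modulo every `q`. The limit laws, the residue class of `k` and the minimum are asymptotically independent.

Proof: for a set of times `P` let `S(P)` be the set of the integers whose orbit has minimum `e` and is there for the first
time at a time in `P`. These sets are not almost invariant under the map, but membership of `n` is determined by a later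
term of the orbit, with a shifted `P`. The equidistribution of almost invariant sets of the starting files (helper319,
helper681) is extended to such families uniformly in `P` (`Pool.Agent.T2h89.CL.equi`, `harm`), and gives a harmonic relation
between the densities of `S(P)` and of `S(P + 1)` in windows, with an error summable along the trajectory. It is iterated
until the height `ε log n`, where the straightness of the trajectories (`Pool.Agent.T2h89.LT.law2`) shows that the remaining
time is concentrated. The law then is that of a sum of independent random variables. For the residue classes of the time one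
uses that the powers of the map are maps of the same kind.
-/

set_option autoImplicit false

namespace Pool.Agent.Results.MP_fd8838_nt.CentralLimit

open Filter Topology Finset
open Pool.Agent.H319R3.GC Pool.Agent.H319R3.DN Pool.Agent.N681.AI Pool.Agent.T2h89.CL

/-- the map `T(n) = n / d` if `d ∣ n` and `(m n - r_j) / d` if `n ≡ j mod d`, `1 ≤ j < d`; the points of a
`T`-orbit that are not divisible by `d` form the `H`-orbit -/
def T (d m : ℕ) (r : ℕ → ℤ) (n : ℤ) : ℤ :=
  if (d : ℤ) ∣ n then n / d else (m * n - r (n % d).toNat) / d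

/-- natural density among the positive integers: `#{n ∈ S : 1 ≤ n ≤ N} / N → δ` -/
def HasDensity (S : Set ℤ) (δ : ℝ) : Prop :=
  Tendsto (fun N : ℕ => (Set.ncard {n : ℤ | n ∈ S ∧ 1 ≤ n ∧ n ≤ (N : ℤ)} : ℝ) / N) atTop (𝓝 δ)

/-- the integers whose `T`-orbit has minimum `e` -/
def WithMin (d m : ℕ) (r : ℕ → ℤ) (e : ℤ) : Set ℤ :=
  {n : ℤ | (∀ k : ℕ, e ≤ (T d m r)^[k] n) ∧ ∃ k : ℕ, (T d m r)^[k] n = e}

/-- the integers whose `T`-orbit leaves the positive integers -/
def Leaving (d m : ℕ) (r : ℕ → ℤ) : Set ℤ := {n : ℤ | ∃ k : ℕ, (T d m r)^[k] n ≤ 0}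

/-- `k` is the first time at which the `T`-orbit of `n` is at `e` -/
def FirstAt (d m : ℕ) (r : ℕ → ℤ) (n e : ℤ) (k : ℕ) : Prop :=
  (T d m r)^[k] n = e ∧ ∀ j < k, (T d m r)^[j] n ≠ e

/-- the number of the first `k` terms of the `T`-orbit of `n` which are not divisible by `d`, that is the number of
applications of `(m x - r_j) / d` in the first `k` steps; for `n` not divisible by `d` and `T^k(n)` not divisible by `d`
this is the number of `H`-steps from `n` to `T^k(n)` -/
def hsteps (d m : ℕ) (r : ℕ → ℤ) (n : ℤ) (k : ℕ) : ℕ :=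
  ((Finset.range k).filter fun i => ¬ (d : ℤ) ∣ (T d m r)^[i] n).card

/-- the mean descent per step, `ρ = log d - ((d - 1) / d) log m` -/
noncomputable def rho (d m : ℕ) : ℝ := Real.log d - ((d : ℝ) - 1) / d * Real.log m

/-- the distribution function of the standard normal distribution -/
noncomputable def Phi (x : ℝ) : ℝ := (ProbabilityTheory.gaussianReal 0 1).real (Set.Iic x)

/-- **Theorem.** Let `d, m ≥ 2` be coprime with `m ≤ d ^ (d / (d - 1))`. Then `ρ > 0`, and for every admissible `R` and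
every set `A` of positive integers there is `δ` such that:
(1) the positive integers whose `T`-orbit has its minimum in `A` have density `δ`; if `A` is the set of all positive
integers, the positive integers whose `T`-orbit leaves the positive integers have density `1 - δ`;
(2) for all real `x`, all `q ≥ 1` and all `a` the positive integers `n` whose `T`-orbit has its minimum `e` in `A` and is
there for the first time at a time `k ≡ a mod q` with
`k ≤ log n / ρ + x (√(d - 1) log m / (d ρ^(3/2))) √(log n)` have density `δ Φ(x) / q`;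
(3) the same holds if the last condition is replaced by
`s ≤ ((d - 1) / (d ρ)) log n + x (√(d - 1) log d / (d ρ^(3/2))) √(log n)`, where `s` is the number of the first `k` terms
of the orbit which are not divisible by `d` (the number of steps of the `H`-orbit). -/
theorem result (d m : ℕ) (hd : 2 ≤ d) (hm : 2 ≤ m) (hc : Nat.Coprime m d)
    (hle : (m : ℝ) ≤ (d : ℝ) ^ ((d : ℝ) / ((d : ℝ) - 1))) :
    0 < rho d m ∧
    ∀ r : ℕ → ℤ, (∀ j : ℕ, 1 ≤ j → j < d → r j ≡ m * j [ZMOD d]) →
    ∀ A : Set ℤ, (∀ e ∈ A, 0 < e) → ∃ δ : ℝ,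
      HasDensity {n : ℤ | ∃ e ∈ A, n ∈ WithMin d m r e} δ ∧
      (A = {e : ℤ | 0 < e} → HasDensity (Leaving d m r) (1 - δ)) ∧
      ∀ (x : ℝ) (q a : ℕ), 1 ≤ q →
        HasDensity {n : ℤ | ∃ e ∈ A, n ∈ WithMin d m r e ∧ ∃ k : ℕ, FirstAt d m r n e k ∧ k ≡ a [MOD q] ∧
          (k : ℝ) ≤ Real.log n / rho d m +
            x * (√((d : ℝ) - 1) * Real.log m / (d * (rho d m * √(rho d m)))) * √(Real.log n)}
          (δ * Phi x / q) ∧
        HasDensity {n : ℤ | ∃ e ∈ A, n ∈ WithMin d m r e ∧ ∃ k : ℕ, FirstAt d m r n e k ∧ k ≡ a [MOD q] ∧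
          (hsteps d m r n k : ℝ) ≤ ((d : ℝ) - 1) / (d * rho d m) * Real.log n +
            x * (√((d : ℝ) - 1) * Real.log d / (d * (rho d m * √(rho d m)))) * √(Real.log n)}
          (δ * Phi x / q) := by
  classical
  have hd0 : (0 : ℝ) < d := by exact_mod_cast (by omega : 0 < d)
  have hd1 : (1 : ℝ) < d := by exact_mod_cast (by omega : 1 < d)
  have hm1 : (1 : ℝ) < m := by exact_mod_cast (by omega : 1 < m)
  have hlm : 0 < Real.log m := Real.log_pos hm1
  have hld : 0 < Real.log d := Real.log_pos hd1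
  obtain ⟨σ, η', hσ, hη0, hη1, hsη⟩ := Pool.Agent.H319R2.Moller.exists_exps hd (by omega) hc hle
  set mm := Pool.Agent.TH930.GH.mq m with hmm
  have hmm0 : mm 0 = 1 := by simp [hmm, Pool.Agent.TH930.GH.mq]
  have hmm1 : ∀ i, i ≠ 0 → mm i = m := by
    intro i hi
    simp [hmm, Pool.Agent.TH930.GH.mq, hi]
  have hPP : PP d mm = m ^ (d - 1) := by
    unfold PP
    obtain ⟨e, rfl⟩ : ∃ e, d = e + 1 := ⟨d - 1, by omega⟩
    rw [Finset.prod_range_succ', hmm0]
    have h1 : ∀ i ∈ range e, (mm (i + 1)).natAbs = m := by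
      intro i _
      rw [hmm1 _ (by omega)]; simp
    rw [Finset.prod_congr rfl h1, Finset.prod_const, card_range]
    simp
  have hlam : Pool.Agent.T2h89.LT.lam d mm = ((d : ℝ) - 1) / d * Real.log m := by
    unfold Pool.Agent.T2h89.LT.lam
    rw [hPP]
    push_cast
    rw [Real.log_pow, Nat.cast_sub (by omega)]
    push_cast
    ring
  have hrho : rho d m = Pool.Agent.T2h89.LT.rho d mm := by
    unfold rho Pool.Agent.T2h89.LT.rho
    rw [hlam]
  have hsum : ∑ j ∈ range d, (|(mm j : ℝ)| / d) ^ σ ≤ (d : ℝ) ^ η' := by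
    obtain ⟨e, rfl⟩ : ∃ e, d = e + 1 := ⟨d - 1, by omega⟩
    rw [Finset.sum_range_succ']
    have h1 : ∀ i ∈ range e, (|(mm (i + 1) : ℝ)| / ((e + 1 : ℕ) : ℝ)) ^ σ =
        (m : ℝ) ^ σ / ((e + 1 : ℕ) : ℝ) ^ σ := by
      intro i _
      have h2 : |(mm (i + 1) : ℝ)| = m := by rw [hmm1 _ (by omega)]; simp
      rw [h2, Real.div_rpow (by positivity) (by positivity)]
    rw [Finset.sum_congr rfl h1, Finset.sum_const, card_range, nsmul_eq_mul]
    have h2 : |(mm 0 : ℝ)| = 1 := by rw [hmm0]; simp
    rw [h2, Real.div_rpow (by positivity) (by positivity), Real.one_rpow]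
    have hds : (0 : ℝ) < ((e + 1 : ℕ) : ℝ) ^ σ := Real.rpow_pos_of_pos hd0 _
    have h3 : ((e + 1 : ℕ) : ℝ) ^ (σ + η') = ((e + 1 : ℕ) : ℝ) ^ σ * ((e + 1 : ℕ) : ℝ) ^ η' :=
      Real.rpow_add hd0 _ _
    rw [h3] at hsη
    have h4 : (e : ℝ) * ((m : ℝ) ^ σ / ((e + 1 : ℕ) : ℝ) ^ σ) + 1 / ((e + 1 : ℕ) : ℝ) ^ σ =
        (1 + (((e + 1 : ℕ) : ℝ) - 1) * (m : ℝ) ^ σ) / ((e + 1 : ℕ) : ℝ) ^ σ := by
      push_cast
      field_simp
      ring
    rw [h4, div_le_iff₀ hds, mul_comm (((e + 1 : ℕ) : ℝ) ^ η')]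
    exact hsη.le
  -- the variance
  set v : ℝ := ((d : ℝ) - 1) / d ^ 2 * Real.log m ^ 2 with hv
  have hv0 : 0 < v := by
    have : 0 < (d : ℝ) - 1 := by linarith
    rw [hv]; positivity
  have hvar : ∑ j ∈ range d, fc d mm j ^ 2 = d * v := by
    unfold fc
    rw [hlam]
    obtain ⟨e, rfl⟩ : ∃ e, d = e + 1 := ⟨d - 1, by omega⟩
    rw [Finset.sum_range_succ']
    have h1 : ∀ i ∈ range e, (Real.log |(mm (i + 1) : ℝ)| -
        (((e + 1 : ℕ) : ℝ) - 1) / ((e + 1 : ℕ) : ℝ) * Real.log m) ^ 2 =
        (Real.log m / ((e + 1 : ℕ) : ℝ)) ^ 2 := by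
      intro i _
      have h2 : |(mm (i + 1) : ℝ)| = m := by rw [hmm1 _ (by omega)]; simp
      rw [h2]
      congr 1
      field_simp
      ring
    rw [Finset.sum_congr rfl h1, Finset.sum_const, card_range, nsmul_eq_mul, hmm0, hv]
    simp only [Int.cast_one, abs_one, Real.log_one, zero_sub]
    push_cast
    field_simp
    ring
  -- an admissible choice
  have hρ : 0 < rho d m := by
    rw [hrho]
    exact Pool.Agent.T2h89.LT.rho_pos (LawOfMinima.adm hd hm hc hle (r := fun j => m * j)
      (fun j _ _ => Int.ModEq.refl _))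
  refine ⟨hρ, ?_⟩
  have hsv : √(v / Pool.Agent.T2h89.LT.rho d mm) =
      √((d : ℝ) - 1) * Real.log m / (d * √(rho d m)) := by
    rw [← hrho, Real.sqrt_div hv0.le, hv, Real.sqrt_mul (by
      have : 0 < (d : ℝ) - 1 := by linarith
      positivity), Real.sqrt_sq hlm.le, Real.sqrt_div (by linarith), Real.sqrt_sq hd0.le]
    field_simp
  have hsρ : 0 < √(rho d m) := Real.sqrt_pos.2 hρ
  have hsρ2 : √(rho d m) * √(rho d m) = rho d m := Real.mul_self_sqrt hρ.le
  intro r hr A hA0
  have hadm := LawOfMinima.adm hd hm hc hle hr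
  have hT : T d m r = Tm d mm (LawOfMinima.r0 r) := LawOfMinima.T_eq d m hd r
  have hmp : ∀ i < d, 0 < mm i := by
    intro i _
    simp only [hmm, Pool.Agent.TH930.GH.mq]
    split_ifs
    · exact one_pos
    · exact_mod_cast (by omega : 0 < m)
  have hij : (mm 0).natAbs ≠ (mm 1).natAbs := by
    simp [hmm, Pool.Agent.TH930.GH.mq]
    omega
  have hWL : ∀ e, WithMin d m r e = Lm d mm (LawOfMinima.r0 r) e := by
    intro e
    unfold WithMin Lm
    rw [hT]
  -- the number of multiplications
  have hMu : ∀ (n : ℤ) (k : ℕ), Real.log |(Pool.Agent.H828R3.GP.Mu d mm (LawOfMinima.r0 r) k n : ℝ)| =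
      hsteps d m r n k * Real.log m := by
    intro n k
    have h1 : ∀ w : List ℕ, Mw mm w = (m : ℤ) ^ ((w.filter (fun i => i ≠ 0)).length) := by
      intro w
      induction w with
      | nil => simp [Mw]
      | cons a w ih =>
        rw [Mw_cons, ih]
        by_cases ha : a = 0
        · rw [ha, hmm0]; simp
        · rw [hmm1 a ha, List.filter_cons_of_pos (by simpa using ha), List.length_cons, pow_succ']
    rw [Pool.Agent.T2h89.LT.Mu_eq, h1]
    have h2 : ((wd d mm (LawOfMinima.r0 r) k n).filter (fun i => i ≠ 0)).length = hsteps d m r n k := by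
      have h3 := LawOfMinima.nz_card hd mm (LawOfMinima.r0 r) k n
      unfold Pool.Agent.W39.nz at h3
      unfold hsteps
      rw [hT]
      exact h3
    rw [h2]
    push_cast
    rw [abs_of_pos (by positivity), Real.log_pow]
  -- the rate
  obtain ⟨c, hc0, C, hC, hcap⟩ : ∃ c : ℝ, 0 < c ∧ ∃ C : ℝ, 0 < C ∧ ∀ X y : ℝ, 1 ≤ X → 1 ≤ y →
        (Set.ncard {n : ℤ | 1 ≤ n ∧ (n : ℝ) ≤ X ∧ (∀ k : ℕ, 0 < (T d m r)^[k] n) ∧
          ∀ k : ℕ, (T d m r)^[k] n ∈ LawOfMinima.E d m r → y < (((T d m r)^[k] n : ℤ) : ℝ)} : ℝ) ≤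
          C * X / y ^ c := by
    by_cases hdm : d < m
    · obtain ⟨c, h1, h2, h3⟩ := CaptureRate.result d m hd hdm hc hle
      obtain ⟨C, hC, h4⟩ := h3 r hr
      exact ⟨c, h1, C, hC, h4⟩
    · obtain ⟨c, h1, h3⟩ := ExceptionalCapture.result d m hd hm hc hle
      obtain ⟨C, hC, h4⟩ := h3 r hr
      exact ⟨c, h1, C, hC, fun X y hX hy => (h4 X y hX hy).1⟩
  -- the densities of the minima
  obtain ⟨c', -, -, hlawr⟩ := LawOfMinima.result d m hd hm hc hle
  obtain ⟨D, η, C', -, ⟨hLv, -⟩, hDd, -, hDsum, -, -, -⟩ := hlawr r hr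
  have hDF : ∀ e : ℤ, 0 < e → Tendsto (Fw (Lm d mm (LawOfMinima.r0 r) e) 1) atTop (𝓝 (D e)) := by
    intro e he
    obtain ⟨c₀, h1⟩ := Lm_ainv hadm hmp he
    obtain ⟨δ, h2, h3⟩ := hasD_of_ainv hadm (by omega : 0 < d) (by omega : 1 < d) hij h1
    have h4 : HasD (Lm d mm (LawOfMinima.r0 r) e) (D e) := by
      have h5 := hDd e he
      have h6 : LawOfMinima.WithMin d m r e = Lm d mm (LawOfMinima.r0 r) e := hWL e
      rw [h6] at h5
      exact h5
    have h5 : δ = D e := tendsto_nhds_unique h2 h4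
    rw [← h5]
    exact Fw_of_G h3
  have hD0 : ∀ e, 0 < e → 0 ≤ D e := fun e he => ge_of_tendsto' (hDF e he) fun t => Fw_nonneg _ _ _
  -- the minima are exceptional
  have hminE : ∀ e n : ℤ, 0 < e → n ∈ WithMin d m r e → e ∈ LawOfMinima.E d m r := by
    intro e n he hn
    have hmin : ∀ k, e ≤ (T d m r)^[k] e := by
      obtain ⟨h1, k', h2⟩ := hn
      intro k
      rw [← h2, ← Function.iterate_add_apply, h2]
      exact h1 _
    refine ⟨he, ?_, fun k _ _ => hmin k⟩
    rintro ⟨t, ht⟩
    have h1 := hmin 1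
    have hd0 : (0 : ℤ) < d := by exact_mod_cast (by omega : 0 < d)
    have hd2 : (2 : ℤ) ≤ d := by exact_mod_cast hd
    have h2 : (T d m r)^[1] e = t := by
      show T d m r e = t
      unfold T
      rw [if_pos ⟨t, ht⟩, ht, Int.mul_ediv_cancel_left _ hd0.ne']
    rw [h2] at h1
    have ht0 : 0 < t := lt_of_lt_of_le he h1
    nlinarith
  -- countable additivity
  have hunion : ∀ (L : ℤ → Set ℤ) (κ : ℝ), (∀ e, L e ⊆ WithMin d m r e) →
      (∀ e : ℤ, 0 < e → HasD (L e) (D e * κ)) →
      HasDensity {n : ℤ | ∃ e ∈ A, n ∈ L e}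
        ((∑' e : (A ∩ LawOfMinima.E d m r : Set ℤ), D e) * κ) := by
    intro L κ hLs hLD
    have h1 := law_union (E := LawOfMinima.E d m r) (fun e he => he.1.le) (L := L)
      (D := fun e => D e * κ) (C := C) (c := c) hc0 (fun e he => hLD e he.1)
      (fun e _ e' _ hne n hn hn' => by
        have g1 := hLs e hn
        have g2 := hLs e' hn'
        rw [hWL] at g1 g2
        exact Lm_disj hne g1 g2)
      (fun N y hN hy => by
        refine le_trans ?_ (hcap N y (by exact_mod_cast hN) hy)
        unfold cp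
        have hfin : {n : ℤ | 1 ≤ n ∧ (n : ℝ) ≤ (N : ℝ) ∧ (∀ k : ℕ, 0 < (T d m r)^[k] n) ∧
            ∀ k : ℕ, (T d m r)^[k] n ∈ LawOfMinima.E d m r → y < (((T d m r)^[k] n : ℤ) : ℝ)}.Finite := by
          apply (Set.finite_Icc (1 : ℤ) N).subset
          rintro n ⟨h1, h2, -⟩
          exact ⟨h1, by exact_mod_cast h2⟩
        have hsub : {n : ℤ | n ∈ {n : ℤ | (∃ e ∈ LawOfMinima.E d m r, n ∈ L e) ∧
            ∀ e ∈ LawOfMinima.E d m r, (e : ℝ) ≤ y → n ∉ L e} ∧ 1 ≤ n ∧ n ≤ (N : ℤ)} ⊆
            {n : ℤ | 1 ≤ n ∧ (n : ℝ) ≤ (N : ℝ) ∧ (∀ k : ℕ, 0 < (T d m r)^[k] n) ∧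
            ∀ k : ℕ, (T d m r)^[k] n ∈ LawOfMinima.E d m r →
              y < (((T d m r)^[k] n : ℤ) : ℝ)} := by
          rintro n ⟨⟨⟨e, he, hne⟩, h2⟩, h3, h4⟩
          have hnW := hLs e hne
          refine ⟨h3, by exact_mod_cast h4, fun k => lt_of_lt_of_le he.1 (hnW.1 k), fun k _ => ?_⟩
          have hey : y < (e : ℝ) := by
            by_contra hcon
            exact h2 e he (not_lt.1 hcon) hne
          have h5 : (e : ℝ) ≤ (((T d m r)^[k] n : ℤ) : ℝ) := by exact_mod_cast hnW.1 k
          linarith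
        exact_mod_cast Set.ncard_le_ncard hsub hfin)
      (hDsum.summable.mul_right κ) (A := A ∩ LawOfMinima.E d m r) Set.inter_subset_right
    have h2 := h1.2
    rw [tsum_mul_right] at h2
    refine HasD.congr h2 fun n _ => ?_
    simp only [Set.mem_iUnion, Set.mem_ofPred_eq, exists_prop]
    constructor
    · rintro ⟨e, he, hn⟩
      exact ⟨e, he.1, hn⟩
    · rintro ⟨e, he, hn⟩
      exact ⟨e, ⟨he, hminE e n (hA0 e he) (hLs e hn)⟩, hn⟩
  refine ⟨∑' e : (A ∩ LawOfMinima.E d m r : Set ℤ), D e, ?_, ?_, ?_⟩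
  · have h1 := hunion (fun e => WithMin d m r e) 1 (fun e => subset_rfl) (fun e he => by
      rw [mul_one]
      exact hDd e he)
    rw [mul_one] at h1
    exact h1
  · intro hAall
    have h1 : A ∩ LawOfMinima.E d m r = LawOfMinima.E d m r := by
      rw [hAall]
      exact Set.inter_eq_right.2 fun e he => he.1
    rw [h1, hDsum.tsum_eq]
    have h2 : HasDensity (Leaving d m r) η := hLv
    rw [sub_sub_cancel]
    exact h2
  · intro x q a hq
    obtain ⟨q', rfl⟩ : ∃ q', q = q' + 1 := ⟨q - 1, by omega⟩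
    have hUD : ∀ e : ℤ, 0 < e → UD d mm (LawOfMinima.r0 r) e (fun k => k ≡ a [MOD (q' + 1)])
        (D e / ((q' + 1 : ℕ) : ℝ)) := fun e he =>
      UD_mod hadm hmp he (by omega : 0 < d) (by omega : 1 < d) hij (hDF e he) q' a
    have hq0 : (0 : ℝ) < ((q' + 1 : ℕ) : ℝ) := by positivity
    have hval : (∑' e : (A ∩ LawOfMinima.E d m r : Set ℤ), D e) * Phi x / ((q' + 1 : ℕ) : ℝ) =
        (∑' e : (A ∩ LawOfMinima.E d m r : Set ℤ), D e) * (Phi x / ((q' + 1 : ℕ) : ℝ)) := by ring
    rw [hval]
    constructor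
    · have h1 := hunion (fun e => if 0 < e then CT d mm (LawOfMinima.r0 r) e
          (fun k => k ≡ a [MOD (q' + 1)]) v x else ∅) (Phi x / ((q' + 1 : ℕ) : ℝ))
        (fun e => by
          split_ifs
          · rw [hWL]; exact fun n hn => hn.1
          · exact Set.empty_subset _)
        (fun e he => by
          rw [if_pos he]
          have h2 := hasD_of_Fw (CT_limit hadm hmp hσ (by linarith) hη1 hsum he hv0 hvar
            (div_nonneg (hD0 e he) hq0.le) (hUD e he) x)
          have e1 : D e / ((q' + 1 : ℕ) : ℝ) * Pool.Agent.T2h89.CL.Phi x =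
              D e * (Phi x / ((q' + 1 : ℕ) : ℝ)) := by
            show D e / ((q' + 1 : ℕ) : ℝ) * Phi x = _
            ring
          rw [e1] at h2
          exact h2)
      have h2 : {n : ℤ | ∃ e ∈ A, n ∈ (if 0 < e then CT d mm (LawOfMinima.r0 r) e
          (fun k => k ≡ a [MOD (q' + 1)]) v x else ∅)} =
          {n : ℤ | ∃ e ∈ A, n ∈ WithMin d m r e ∧ ∃ k : ℕ, FirstAt d m r n e k ∧ k ≡ a [MOD (q' + 1)] ∧
          (k : ℝ) ≤ Real.log n / rho d m +
            x * (√((d : ℝ) - 1) * Real.log m / (d * (rho d m * √(rho d m)))) * √(Real.log n)} := by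
        ext n
        have key : ∀ k : ℕ, (Pool.Agent.T2h89.LT.rho d mm * k ≤ Real.log n +
            x * (√(v / Pool.Agent.T2h89.LT.rho d mm) * √(Real.log n)) ↔
            (k : ℝ) ≤ Real.log n / rho d m +
            x * (√((d : ℝ) - 1) * Real.log m / (d * (rho d m * √(rho d m)))) * √(Real.log n)) := by
          intro k
          rw [hsv, ← hrho, ← le_div_iff₀' hρ]
          have e1 : (Real.log n + x * (√((d : ℝ) - 1) * Real.log m / (d * √(rho d m)) *
              √(Real.log n))) / rho d m = Real.log n / rho d m +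
            x * (√((d : ℝ) - 1) * Real.log m / (d * (rho d m * √(rho d m)))) * √(Real.log n) := by
            field_simp
          rw [e1]
        constructor
        · rintro ⟨e, he, hn⟩
          rw [if_pos (hA0 e he)] at hn
          obtain ⟨hn1, k, ⟨hk1, hk2⟩, hk3, hk4⟩ := hn
          refine ⟨e, he, by rw [hWL]; exact hn1, k, ⟨?_, ?_⟩, hk1, (key k).1 hk2⟩
          · rw [hT]; exact hk3
          · rw [hT]; exact hk4
        · rintro ⟨e, he, hn1, k, ⟨hk3, hk4⟩, hk1, hk2⟩
          refine ⟨e, he, ?_⟩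
          rw [if_pos (hA0 e he)]
          rw [hWL] at hn1
          rw [hT] at hk3 hk4
          exact ⟨hn1, k, ⟨hk1, (key k).2 hk2⟩, hk3, hk4⟩
      rw [← h2]
      exact h1
    · have h1 := hunion (fun e => if 0 < e then MS d mm (LawOfMinima.r0 r) e
          (fun k => k ≡ a [MOD (q' + 1)]) v x else ∅) (Phi x / ((q' + 1 : ℕ) : ℝ))
        (fun e => by
          split_ifs
          · rw [hWL]; exact fun n hn => hn.1
          · exact Set.empty_subset _)
        (fun e he => by
          rw [if_pos he]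
          have h2 := hasD_of_Fw (MS_limit hadm hmp hσ (by linarith) hη1 hsum he hv0 hvar
            (div_nonneg (hD0 e he) hq0.le) (hUD e he) x)
          have e1 : D e / ((q' + 1 : ℕ) : ℝ) * Pool.Agent.T2h89.CL.Phi x =
              D e * (Phi x / ((q' + 1 : ℕ) : ℝ)) := by
            show D e / ((q' + 1 : ℕ) : ℝ) * Phi x = _
            ring
          rw [e1] at h2
          exact h2)
      have h2 : {n : ℤ | ∃ e ∈ A, n ∈ (if 0 < e then MS d mm (LawOfMinima.r0 r) e
          (fun k => k ≡ a [MOD (q' + 1)]) v x else ∅)} =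
          {n : ℤ | ∃ e ∈ A, n ∈ WithMin d m r e ∧ ∃ k : ℕ, FirstAt d m r n e k ∧ k ≡ a [MOD (q' + 1)] ∧
          (hsteps d m r n k : ℝ) ≤ ((d : ℝ) - 1) / (d * rho d m) * Real.log n +
            x * (√((d : ℝ) - 1) * Real.log d / (d * (rho d m * √(rho d m)))) * √(Real.log n)} := by
        ext n
        have key : ∀ k : ℕ, (Pool.Agent.T2h89.LT.rho d mm *
            Real.log |(Pool.Agent.H828R3.GP.Mu d mm (LawOfMinima.r0 r) k n : ℝ)| ≤
            Pool.Agent.T2h89.LT.lam d mm * Real.log n +
            x * (√(v / Pool.Agent.T2h89.LT.rho d mm) * Real.log d * √(Real.log n)) ↔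
            (hsteps d m r n k : ℝ) ≤ ((d : ℝ) - 1) / (d * rho d m) * Real.log n +
            x * (√((d : ℝ) - 1) * Real.log d / (d * (rho d m * √(rho d m)))) * √(Real.log n)) := by
          intro k
          rw [hMu, hsv, ← hrho, hlam]
          have e1 : rho d m * (hsteps d m r n k * Real.log m) =
              (hsteps d m r n k : ℝ) * (rho d m * Real.log m) := by ring
          rw [e1, ← le_div_iff₀ (by positivity)]
          have e2 : (((d : ℝ) - 1) / d * Real.log m * Real.log n +
              x * (√((d : ℝ) - 1) * Real.log m / (d * √(rho d m)) * Real.log d *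
              √(Real.log n))) / (rho d m * Real.log m) =
              ((d : ℝ) - 1) / (d * rho d m) * Real.log n +
            x * (√((d : ℝ) - 1) * Real.log d / (d * (rho d m * √(rho d m)))) * √(Real.log n) := by
            field_simp
          rw [e2]
        constructor
        · rintro ⟨e, he, hn⟩
          rw [if_pos (hA0 e he)] at hn
          obtain ⟨hn1, k, ⟨hk1, hk2⟩, hk3, hk4⟩ := hn
          refine ⟨e, he, by rw [hWL]; exact hn1, k, ⟨?_, ?_⟩, hk1, (key k).1 hk2⟩
          · rw [hT]; exact hk3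
          · rw [hT]; exact hk4
        · rintro ⟨e, he, hn1, k, ⟨hk3, hk4⟩, hk1, hk2⟩
          refine ⟨e, he, ?_⟩
          rw [if_pos (hA0 e he)]
          rw [hWL] at hn1
          rw [hT] at hk3 hk4
          exact ⟨hn1, k, ⟨hk1, (key k).2 hk2⟩, hk3, hk4⟩
      rw [← h2]
      exact h1

end Pool.Agent.Results.MP_fd8838_nt.CentralLimit
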