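import Pool.Agent.T2h89.SV13
import Pool.Agent.H319R2.GMoller2

set_option autoImplicit false

/-!
# Möller's maps: the orbits which start in sifted sets, at primes and at prime tuples

Let `F` be a nonconstant polynomial with integer coefficients, and let `P` be ANY finite set of primes `≤ X`. Of the
integers `n ≤ X` such that no `p ∈ P` divides `F(n)` at most a proportion `y ^ (-c)` (relative to the expected number
`X ∏ (1 - ω(p) / p)` of such `n`) have an orbit that stays positive and passes through no element `≤ y` of the exceptional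
set. The same is true for the `n` such that `n + h_1, …, n + h_k` are all prime; for example for the primes.

Proof: the sets `S` of integers whose orbits avoid `[-y, y]` are essentially invariant under the map. `N` steps of the map
take the elements of `S` in a residue class `a mod d ^ N` into progressions with difference `m ^ o`; the numbers of words
with the same `o` is larger than `m ^ o` for typical `o`, so a point of a progression has many preimages; the sieve
conditions on the different preimages are nearly independent, by the computation of the second moments (exact for the small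
primes, by the large sieve for the large primes). This allows to pass from the level `z` to the level `z ^ 2` with an error
`O(z ^ (-1/2))`, so the estimate is reduced to the case of a level `z = y ^ θ`, where it follows from the estimate for all
integers.
-/

namespace Pool.Agent.Results.MP_fd8838_nt.SiftedSets

open Finset Polynomial

/-- the map `T(n) = n / d` if `d ∣ n` and `(m n - r_j) / d` if `n ≡ j mod d`, `1 ≤ j < d`; the points of a
`T`-orbit that are not divisible by `d` form the `H`-orbit -/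
def T (d m : ℕ) (r : ℕ → ℤ) (n : ℤ) : ℤ :=
  if (d : ℤ) ∣ n then n / d else (m * n - r (n % d).toNat) / d

/-- the exceptional set `E(d, m, R)`, in terms of `T`: the integers `e > 0` not divisible by `d` such that,
as long as the orbit of `e` stays positive, its terms not divisible by `d` (the terms of the `H`-orbit)
are `≥ e` -/
def E (d m : ℕ) (r : ℕ → ℤ) : Set ℤ :=
  {e : ℤ | 0 < e ∧ ¬ (d : ℤ) ∣ e ∧ ∀ k : ℕ, (∀ j ≤ k, 0 < (T d m r)^[j] e) →
    ¬ (d : ℤ) ∣ (T d m r)^[k] e → e ≤ (T d m r)^[k] e}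

/-- the integers whose orbit never enters `[-y, y]` -/
def Avoid (d m : ℕ) (r : ℕ → ℤ) (y : ℝ) : Set ℤ := {x : ℤ | ∀ k : ℕ, y < |(((T d m r)^[k] x : ℤ) : ℝ)|}

/-- the positive integers whose orbit stays positive and passes through no element `≤ y` of the exceptional set -/
def Missed (d m : ℕ) (r : ℕ → ℤ) (y : ℝ) : Set ℤ :=
  {n : ℤ | 1 ≤ n ∧ (∀ k : ℕ, 0 < (T d m r)^[k] n) ∧
    ∀ k : ℕ, (T d m r)^[k] n ∈ E d m r → y < (((T d m r)^[k] n : ℤ) : ℝ)}

/-- the number of the residues `a` modulo `p` with `p ∣ F(a)` -/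
def omega (F : ℤ[X]) (p : ℕ) : ℕ := ((Finset.range p).filter (fun a : ℕ => (p : ℤ) ∣ F.eval (a : ℤ))).card

/-- a positive orbit contains a term not divisible by `d` that is at most the starting point -/
theorem exists_nd {d m : ℕ} {r : ℕ → ℤ} (hd : 2 ≤ d) (N : ℕ) : ∀ z : ℤ, 0 < z → z.toNat ≤ N →
    (∀ k : ℕ, 0 < (T d m r)^[k] z) → ∃ i : ℕ, ¬ (d : ℤ) ∣ (T d m r)^[i] z ∧ (T d m r)^[i] z ≤ z := by
  induction N with
  | zero => intro z hz h; omega
  | succ N ih =>
    intro z hz hN hpos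
    by_cases h : (d : ℤ) ∣ z
    · have hT : T d m r z = z / d := by unfold T; rw [if_pos h]
      obtain ⟨t, ht⟩ := h
      have hd0 : (0 : ℤ) < d := by exact_mod_cast (by omega : 0 < d)
      have hTt : T d m r z = t := by rw [hT, ht, Int.mul_ediv_cancel_left _ hd0.ne']
      have ht0 : 0 < t := by
        by_contra hcon
        push Not at hcon
        nlinarith
      have hd2 : (2 : ℤ) ≤ d := by exact_mod_cast hd
      have htz : t < z := by nlinarith
      obtain ⟨i, h1, h2⟩ := ih t ht0 (by omega) (fun k => by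
        have := hpos (k + 1)
        rwa [Function.iterate_succ_apply, hTt] at this)
      refine ⟨i + 1, ?_, ?_⟩
      · rwa [Function.iterate_succ_apply, hTt]
      · rw [Function.iterate_succ_apply, hTt]; linarith
    · exact ⟨0, h, le_refl _⟩

/-- a positive orbit that reaches a value `≤ y` passes through an element `≤ y` of `E` -/
theorem capture {d m : ℕ} {r : ℕ → ℤ} (hd : 2 ≤ d) {n : ℤ} (hpos : ∀ k : ℕ, 0 < (T d m r)^[k] n)
    {y : ℝ} {k : ℕ} (hk : (((T d m r)^[k] n : ℤ) : ℝ) ≤ y) :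
    ∃ j : ℕ, (T d m r)^[j] n ∈ E d m r ∧ (((T d m r)^[j] n : ℤ) : ℝ) ≤ y := by
  classical
  obtain ⟨i, h1, h2⟩ := exists_nd (m := m) (r := r) hd _ _ (hpos k) le_rfl (fun j => by
    rw [← Function.iterate_add_apply]; exact hpos _)
  rw [← Function.iterate_add_apply] at h1 h2
  have hex : ∃ v : ℕ, ∃ j : ℕ, ¬ (d : ℤ) ∣ (T d m r)^[j] n ∧ ((T d m r)^[j] n).toNat = v :=
    ⟨_, i + k, h1, rfl⟩
  obtain ⟨j, hj1, hj2⟩ := Nat.find_spec hex
  have hmin : ∀ l : ℕ, ¬ (d : ℤ) ∣ (T d m r)^[l] n → (T d m r)^[j] n ≤ (T d m r)^[l] n := by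
    intro l hl
    have h3 := Nat.find_min' hex ⟨l, hl, rfl⟩
    have h4 := hpos l
    have h5 := hpos j
    omega
  refine ⟨j, ⟨hpos j, hj1, ?_⟩, ?_⟩
  · intro l _ hl
    rw [← Function.iterate_add_apply] at hl ⊢
    exact hmin _ hl
  · have h3 := (hmin _ h1).trans h2
    have h4 : (((T d m r)^[j] n : ℤ) : ℝ) ≤ (((T d m r)^[k] n : ℤ) : ℝ) := by exact_mod_cast h3
    linarith

theorem missed_sub {d m : ℕ} {r : ℕ → ℤ} (hd : 2 ≤ d) (y : ℝ) : Missed d m r y ⊆ Avoid d m r y := by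
  rintro n ⟨_, h3, h4⟩ k
  have h5 : (0 : ℝ) < (((T d m r)^[k] n : ℤ) : ℝ) := by exact_mod_cast h3 k
  rw [abs_of_pos h5]
  by_contra hcon
  push Not at hcon
  obtain ⟨j, hj1, hj2⟩ := capture hd h3 hcon
  have := h4 j hj1
  linarith

theorem fin_abs {X : ℝ} {S : Set ℤ} (h : ∀ x ∈ S, |(x : ℝ)| ≤ X) : S.Finite := by
  apply (Set.finite_Icc (-⌈X⌉) ⌈X⌉).subset
  intro x hx
  have h1 := abs_le.1 (h x hx)
  have h2 := Int.le_ceil X
  rw [Set.mem_Icc]
  constructor
  · have : (-(⌈X⌉ : ℤ) : ℝ) ≤ x := by linarith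
    exact_mod_cast this
  · have : (x : ℝ) ≤ (⌈X⌉ : ℤ) := by linarith
    exact_mod_cast this

/-- **Theorem.** Let `d, m ≥ 2` be coprime with `m ≤ d ^ (d / (d - 1))`.
(1) For every `D` there is `c > 0`, depending only on `d`, `m` and `D`, such that for every nonconstant `F ∈ ℤ[x]` of
degree `≤ D` and every admissible `R` there is `C` with: for all `X, y ≥ 1` and EVERY finite set `P` of primes `≤ X`, if
`ω(p)` is the number of the residues `a mod p` with `p ∣ F(a)`,
 (a) at most `C X exp(-∑_{p ∈ P} ω(p) / p) y ^ (-c)` of the integers `x`, `|x| ≤ X`, such that no `p ∈ P` divides `F(x)`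
   have an orbit which never enters `[-y, y]`;
 (b) at most `C X exp(-∑_{p ∈ P} ω(p) / p) y ^ (-c)` of the integers `1 ≤ n ≤ X` such that no `p ∈ P` divides `F(n)` have
   an orbit which stays positive and passes through no element `≤ y` of the exceptional set `E(d, m, R)`.
(2) For every `k ≥ 1` there is `c > 0`, depending only on `d`, `m` and `k`, such that for every set `{h_1, …, h_k}` of `k`
integers and every admissible `R` there is `C` with: for all `X ≥ 2` and `y ≥ 1` at most `C X (log X) ^ (-k) y ^ (-c)` of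
the integers `1 ≤ n ≤ X` such that `n + h_1, …, n + h_k` are all prime have
 (a) an orbit which never enters `[-y, y]`;
 (b) an orbit which stays positive and passes through no element `≤ y` of the exceptional set `E(d, m, R)`. -/
theorem result (d m : ℕ) (hd : 2 ≤ d) (hm : 2 ≤ m) (hc : Nat.Coprime m d)
    (hle : (m : ℝ) ≤ (d : ℝ) ^ ((d : ℝ) / ((d : ℝ) - 1))) :
    (∀ D : ℕ, ∃ c : ℝ, 0 < c ∧ ∀ F : ℤ[X], 0 < F.natDegree → F.natDegree ≤ D →
      ∀ r : ℕ → ℤ, (∀ j : ℕ, 1 ≤ j → j < d → r j ≡ m * j [ZMOD d]) →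
      ∃ C : ℝ, 0 < C ∧ ∀ (X y : ℝ) (P : Finset ℕ), 1 ≤ X → 1 ≤ y → (∀ p ∈ P, p.Prime ∧ (p : ℝ) ≤ X) →
        (Set.ncard {x : ℤ | |(x : ℝ)| ≤ X ∧ (∀ p ∈ P, ¬ (p : ℤ) ∣ F.eval x) ∧ x ∈ Avoid d m r y} : ℝ) ≤
          C * X * Real.exp (-∑ p ∈ P, (omega F p : ℝ) / p) * y ^ (-c) ∧
        (Set.ncard {n : ℤ | (n : ℝ) ≤ X ∧ (∀ p ∈ P, ¬ (p : ℤ) ∣ F.eval n) ∧ n ∈ Missed d m r y} : ℝ) ≤
          C * X * Real.exp (-∑ p ∈ P, (omega F p : ℝ) / p) * y ^ (-c)) ∧
    (∀ k : ℕ, 1 ≤ k → ∃ c : ℝ, 0 < c ∧ ∀ h : Finset ℤ, h.card = k →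
      ∀ r : ℕ → ℤ, (∀ j : ℕ, 1 ≤ j → j < d → r j ≡ m * j [ZMOD d]) →
      ∃ C : ℝ, 0 < C ∧ ∀ X y : ℝ, 2 ≤ X → 1 ≤ y →
        (Set.ncard {n : ℤ | 1 ≤ n ∧ (n : ℝ) ≤ X ∧ (∀ a ∈ h, (n + a).toNat.Prime) ∧ n ∈ Avoid d m r y} : ℝ) ≤
          C * (X / Real.log X ^ k) * y ^ (-c) ∧
        (Set.ncard {n : ℤ | (n : ℝ) ≤ X ∧ (∀ a ∈ h, (n + a).toNat.Prime) ∧ n ∈ Missed d m r y} : ℝ) ≤
          C * (X / Real.log X ^ k) * y ^ (-c)) := by
  have hd0 : (0 : ℝ) < d := by exact_mod_cast (by omega : 0 < d)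
  obtain ⟨s, η, hs, hη0, hη1, hsη⟩ := Pool.Agent.H319R2.Moller.exists_exps hd (by omega) hc hle
  have hs0 : 0 < s := by
    rcases hs.lt_or_eq with h | h
    · exact h
    · exfalso
      rw [← h, Real.rpow_zero, zero_add, mul_one] at hsη
      have h1 : (d : ℝ) ^ η ≤ (d : ℝ) ^ (1 : ℝ) :=
        Real.rpow_le_rpow_of_exponent_le (by exact_mod_cast (by omega : 1 ≤ d)) hη1.le
      rw [Real.rpow_one] at h1
      linarith
  set m' : ℕ → ℤ := fun i => if i = 0 then 1 else (m : ℤ) with hm'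
  have hcop : ∀ i < d, IsCoprime (m' i) (d : ℤ) := by
    intro i _
    simp only [hm']
    split_ifs
    · exact isCoprime_one_left
    · exact Nat.isCoprime_iff_coprime.2 hc
  have hprod : ∏ i ∈ range d, (m' i).natAbs < d ^ d ∧ 2 ≤ ∏ i ∈ range d, (m' i).natAbs := by
    obtain ⟨e, rfl⟩ : ∃ e, d = e + 1 := ⟨d - 1, by omega⟩
    rw [Finset.prod_range_succ']
    have h1 : ∀ i ∈ range e, (m' (i + 1)).natAbs = m := by
      intro i _
      simp [hm']
    rw [Finset.prod_congr rfl h1, Finset.prod_const, card_range]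
    have h2 : (m' 0).natAbs = 1 := by simp [hm']
    rw [h2, mul_one]
    have h3 := Pool.Agent.H319R2.Moller.pow_le_of_rpow (d := e + 1) (m := m) hd hle
    simp only [Nat.add_sub_cancel] at h3
    constructor
    · refine lt_of_le_of_ne h3 ?_
      intro h4
      have h5 : Nat.Coprime (m ^ e) ((e + 1) ^ (e + 1)) := Nat.Coprime.pow _ _ hc
      rw [h4, Nat.coprime_self] at h5
      have : 1 < (e + 1) ^ (e + 1) := Nat.one_lt_pow (by omega) (by omega)
      omega
    · calc 2 ≤ m := hm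
        _ = m ^ 1 := (pow_one m).symm
        _ ≤ m ^ e := Nat.pow_le_pow_right (by omega) (by omega)
  have hsum : ∑ j ∈ range d, (|(m' j : ℝ)| / d) ^ s ≤ (d : ℝ) ^ η := by
    obtain ⟨e, rfl⟩ : ∃ e, d = e + 1 := ⟨d - 1, by omega⟩
    rw [Finset.sum_range_succ']
    have h1 : ∀ i ∈ range e, (|(m' (i + 1) : ℝ)| / ((e + 1 : ℕ) : ℝ)) ^ s =
        (m : ℝ) ^ s / ((e + 1 : ℕ) : ℝ) ^ s := by
      intro i _
      have h2 : |(m' (i + 1) : ℝ)| = m := by simp [hm']
      rw [h2, Real.div_rpow (by positivity) (by positivity)]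
    rw [Finset.sum_congr rfl h1, Finset.sum_const, card_range, nsmul_eq_mul]
    have h2 : |(m' 0 : ℝ)| = 1 := by simp [hm']
    rw [h2, Real.div_rpow (by positivity) (by positivity), Real.one_rpow]
    have hds : (0 : ℝ) < ((e + 1 : ℕ) : ℝ) ^ s := Real.rpow_pos_of_pos hd0 _
    have h3 : ((e + 1 : ℕ) : ℝ) ^ (s + η) = ((e + 1 : ℕ) : ℝ) ^ s * ((e + 1 : ℕ) : ℝ) ^ η :=
      Real.rpow_add hd0 _ _
    rw [h3] at hsη
    have h4 : (e : ℝ) * ((m : ℝ) ^ s / ((e + 1 : ℕ) : ℝ) ^ s) + 1 / ((e + 1 : ℕ) : ℝ) ^ s =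
        (1 + (((e + 1 : ℕ) : ℝ) - 1) * (m : ℝ) ^ s) / ((e + 1 : ℕ) : ℝ) ^ s := by
      push_cast
      field_simp
      ring
    rw [h4, div_le_iff₀ hds, mul_comm (((e + 1 : ℕ) : ℝ) ^ η)]
    exact hsη.le
  -- the map as a map of the general form
  have hred : ∀ r : ℕ → ℤ, (∀ j : ℕ, 1 ≤ j → j < d → r j ≡ m * j [ZMOD d]) →
      ∃ r' : ℕ → ℤ, Pool.Agent.H319R3.GC.Adm d m' r' ∧
        ∀ y : ℝ, Avoid d m r y = Pool.Agent.H828R3.GP.Sy d m' r' y := by
    intro r hr
    set r' : ℕ → ℤ := fun i => if i = 0 then 0 else r i with hr'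
    have hT : T d m r = Pool.Agent.H319R3.GC.Tm d m' r' := by
      funext n
      unfold T Pool.Agent.H319R3.GC.Tm
      have hn0 : 0 ≤ n % (d : ℤ) := Int.emod_nonneg _ (by omega)
      by_cases h : (d : ℤ) ∣ n
      · have h1 : (n % (d : ℤ)).toNat = 0 := by
          rw [Int.emod_eq_zero_of_dvd h]; rfl
        rw [if_pos h, h1]
        simp [hm', hr']
      · have h1 : (n % (d : ℤ)).toNat ≠ 0 := by
          intro h2
          apply h
          apply Int.dvd_of_emod_eq_zero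
          omega
        rw [if_neg h]
        simp [hm', hr', h1]
    have hadm : ∀ i < d, (d : ℤ) ∣ m' i * i - r' i := by
      intro i hi
      simp only [hm', hr']
      split_ifs with h0
      · subst h0; simp
      · exact (hr i (by omega) hi).dvd
    refine ⟨r', ⟨hd, hcop, hadm, hprod.1, hprod.2⟩, fun y => ?_⟩
    unfold Avoid Pool.Agent.H828R3.GP.Sy
    rw [hT]
  have hom : ∀ (F : ℤ[X]) (p : ℕ), Pool.Agent.T2h89.SV.om (Pool.Agent.T2h89.SV.Bp F) p = omega F p := by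
    intro F p
    unfold Pool.Agent.T2h89.SV.om Pool.Agent.T2h89.SV.Bp omega
    congr
  refine ⟨fun D => ⟨(1 - η) / (32 * (D + 1)), div_pos (by linarith) (by positivity), ?_⟩,
    fun k hk => ⟨(1 - η) / (32 * (k + 1)), div_pos (by linarith) (by positivity), ?_⟩⟩
  · intro F hF hFD r hr
    obtain ⟨r', hadm, hA⟩ := hred r hr
    obtain ⟨C, hC, h⟩ := Pool.Agent.T2h89.SV.sift_poly hadm hs0 (by linarith) hη1 hsum hF
    simp only [hom, ← hA] at h
    refine ⟨C, hC, fun X y P hX hy hP => ?_⟩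
    have h1 : (Set.ncard {x : ℤ | |(x : ℝ)| ≤ X ∧ (∀ p ∈ P, ¬ (p : ℤ) ∣ F.eval x) ∧ x ∈ Avoid d m r y} : ℝ) ≤
          C * X * Real.exp (-∑ p ∈ P, (omega F p : ℝ) / p) * y ^ (-((1 - η) / (32 * ((D : ℝ) + 1)))) := by
      refine (h X y P hX hy hP).trans ?_
      have h2 : y ^ (-((1 - η) / (32 * ((F.natDegree : ℝ) + 1)))) ≤ y ^ (-((1 - η) / (32 * ((D : ℝ) + 1)))) := by
        apply Real.rpow_le_rpow_of_exponent_le hy
        apply neg_le_neg
        have h3 : (F.natDegree : ℝ) ≤ D := by exact_mod_cast hFD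
        apply div_le_div_of_nonneg_left (by linarith) (by positivity)
        linarith
      gcongr
    refine ⟨h1, le_trans ?_ h1⟩
    have hsub : {n : ℤ | (n : ℝ) ≤ X ∧ (∀ p ∈ P, ¬ (p : ℤ) ∣ F.eval n) ∧ n ∈ Missed d m r y} ⊆
        {x : ℤ | |(x : ℝ)| ≤ X ∧ (∀ p ∈ P, ¬ (p : ℤ) ∣ F.eval x) ∧ x ∈ Avoid d m r y} := by
      rintro n ⟨h2, h3, h4⟩
      have h5 : (1 : ℝ) ≤ n := by exact_mod_cast h4.1
      exact ⟨by rw [abs_of_pos (by linarith)]; exact h2, h3, missed_sub hd y h4⟩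
    exact_mod_cast Set.ncard_le_ncard hsub (fin_abs fun x hx => hx.1)
  · intro h hh r hr
    obtain ⟨r', hadm, hA⟩ := hred r hr
    obtain ⟨C, hC, h'⟩ := Pool.Agent.T2h89.SV.tuples hadm hs0 (by linarith) hη1 hsum
      (Hs := h) (card_pos.1 (by omega))
    simp only [← hA, hh] at h'
    refine ⟨C, hC, fun X y hX hy => ⟨h' X y hX hy, le_trans ?_ (h' X y hX hy)⟩⟩
    have hsub : {n : ℤ | (n : ℝ) ≤ X ∧ (∀ a ∈ h, (n + a).toNat.Prime) ∧ n ∈ Missed d m r y} ⊆
        {n : ℤ | 1 ≤ n ∧ (n : ℝ) ≤ X ∧ (∀ a ∈ h, (n + a).toNat.Prime) ∧ n ∈ Avoid d m r y} := by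
      rintro n ⟨h2, h3, h4⟩
      exact ⟨h4.1, h2, h3, missed_sub hd y h4⟩
    exact_mod_cast Set.ncard_le_ncard hsub (fin_abs (X := X) fun x hx => by
      have h5 : (1 : ℝ) ≤ x := by exact_mod_cast hx.1
      rw [abs_of_pos (by linarith)]; exact hx.2.1)

end Pool.Agent.Results.MP_fd8838_nt.SiftedSets
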