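import Pool.Agent.T2h89.Up2
import Pool.Agent.T2h89.Low2
import Pool.Agent.H319R2.GMoller2

/-!
# Möller's maps: stopping times beyond `log_d X` in arbitrary intervals, with the sharp exponent
Let `gcd(m, d) = 1`, `d < m ≤ d ^ (d / (d - 1))`, and `κ = 1 - h(d, m)`, where `h(d, m)` is the `d`-ary entropy of
`log d / log m` in base `d`. The largest number of integers `n` of an interval `(u, u + X]`, `u ≥ 0`, with `T^j(n) ≥ n`
for all `j ≤ (1 + τ) log_d X` is `X ^ (1 - (1 + τ) κ + O(exp (-a / τ)))` for small `τ > 0`. In particular every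
interval of length `X` contains at most so many elements of the exceptional set `E(d, m, R)`.
-/

set_option autoImplicit false

namespace Pool.Agent.Results.MP_fd8838_nt.StoppingTimesSharp

open Finset

/-- The generalised Hasse-Syracuse map `H(x) = (m x - r_j) / d ^ a(x)`, where `j` is the residue of
`x` modulo `d` and `d ^ a(x)` is the largest power of `d` dividing `m x - r_j`. -/
noncomputable def H (d m : ℕ) (r : ℤ → ℤ) (x : ℤ) : ℤ :=
  (m * x - r (x % d)) / (d : ℤ) ^ multiplicity (d : ℤ) (m * x - r (x % d))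

/-- The exceptional set `E(d, m, R)`: the positive integers `n` not divisible by `d` such that
`H^k(n) ≥ n` for all `k ≥ 1` for which `H^k(n)` is defined (the orbit stops at `y` if
`m y ≤ r_j`). -/
def E (d m : ℕ) (r : ℤ → ℤ) : Set ℤ :=
  {n | 0 < n ∧ ¬ (d : ℤ) ∣ n ∧ ∀ k, 1 ≤ k →
    (∀ i < k, r ((H d m r)^[i] n % d) < m * (H d m r)^[i] n) → n ≤ (H d m r)^[k] n}

/-- The map `T(x) = x / d` if `d ∣ x`, `T(x) = (m x - r_j) / d` if `x ≡ j (mod d)`, `1 ≤ j < d`; the terms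
of a `T`-orbit that are not divisible by `d` form the `H`-orbit. -/
def T (d m : ℕ) (r : ℤ → ℤ) (x : ℤ) : ℤ := if x % d = 0 then x / d else (m * x - r (x % d)) / d

/-- `κ = 1 - h(d, m)`, where `h(d, m)` is the `d`-ary entropy of `log d / log m`, in base `d` -/
noncomputable def kappa (d m : ℕ) : ℝ := 1 - Real.qaryEntropy d (Real.log d / Real.log m) / Real.log d

/-- The integers `u < n ≤ u + X` such that `T^j(n) ≥ n` for all `j ≤ (1 + τ) log_d X`. -/
def Slow (d m : ℕ) (r : ℤ → ℤ) (τ X : ℝ) (u : ℤ) : Set ℤ :=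
  {n : ℤ | u < n ∧ (n : ℝ) ≤ u + X ∧ ∀ j : ℕ, (j : ℝ) ≤ (1 + τ) * Real.logb d X → n ≤ (T d m r)^[j] n}

section
variable {d m : ℕ} {r : ℤ → ℤ}

lemma mod_range (hd : 2 ≤ d) {y : ℤ} (hy : ¬ (d : ℤ) ∣ y) : 1 ≤ y % d ∧ y % d < d := by
  have hd0 : (0 : ℤ) < d := by exact_mod_cast (by omega : 0 < d)
  have h1 := Int.emod_nonneg y hd0.ne'
  have h2 := Int.emod_lt_of_pos y hd0
  have h3 : y % d ≠ 0 := fun h => hy (Int.dvd_of_emod_eq_zero h)
  omega

lemma H_spec (hd : 2 ≤ d) (hr : ∀ j : ℤ, 1 ≤ j → j < d → (d : ℤ) ∣ m * j - r j) {y : ℤ}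
    (hy : ¬ (d : ℤ) ∣ y) (hpos : r (y % d) < m * y) :
    ¬ (d : ℤ) ∣ H d m r y ∧ ∃ v : ℕ, m * y - r (y % d) = (d : ℤ) ^ (v + 1) * H d m r y := by
  set z := m * y - r (y % d) with hz
  have hz0 : z ≠ 0 := by omega
  obtain ⟨h1, h2⟩ := mod_range hd hy
  have hdz : (d : ℤ) ∣ z := by
    have h3 := hr (y % d) h1 h2
    have h4 : (d : ℤ) ∣ m * (y - y % d) := Dvd.dvd.mul_left (Int.dvd_self_sub_emod) _
    have h5 := dvd_add h3 h4
    have h6 : (m : ℤ) * (y % d) - r (y % d) + m * (y - y % d) = z := by rw [hz]; ring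
    rwa [h6] at h5
  have hf : FiniteMultiplicity (d : ℤ) z := by
    rw [Int.finiteMultiplicity_iff]
    exact ⟨by simp; omega, hz0⟩
  have hv : 1 ≤ multiplicity (d : ℤ) z := by
    rw [← hf.pow_dvd_iff_le_multiplicity]
    simpa using hdz
  obtain ⟨v, hv'⟩ : ∃ v, multiplicity (d : ℤ) z = v + 1 := ⟨multiplicity (d : ℤ) z - 1, by omega⟩
  have hdvd : (d : ℤ) ^ (v + 1) ∣ z := by rw [← hv']; exact pow_multiplicity_dvd _ _
  have hH : H d m r y = z / (d : ℤ) ^ (v + 1) := by unfold H; rw [← hz, hv']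
  have hzH : z = (d : ℤ) ^ (v + 1) * H d m r y := by rw [hH, Int.mul_ediv_cancel' hdvd]
  refine ⟨fun h => ?_, v, hzH⟩
  have h7 : (d : ℤ) ^ (v + 1 + 1) ∣ z := by
    rw [hzH, pow_succ (d : ℤ) (v + 1)]
    exact mul_dvd_mul_left _ h
  have h8 := hf.pow_dvd_iff_le_multiplicity.1 h7
  omega

/-- the terms of the `T`-orbit of an element of the exceptional set stay above it -/
lemma orbit_ge (hd : 2 ≤ d) (hm : 1 ≤ m) (hr : ∀ j : ℤ, 1 ≤ j → j < d → (d : ℤ) ∣ m * j - r j)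
    {ρ : ℤ} (hρ : ∀ j : ℤ, 1 ≤ j → j < d → r j ≤ ρ) {n : ℤ} (hn : n ∈ E d m r) (hnρ : ρ < n)
    (t : ℕ) : n ≤ (T d m r)^[t] n := by
  have hd0 : (0 : ℤ) < d := by exact_mod_cast (by omega : 0 < d)
  have hm1 : (1 : ℤ) ≤ m := by exact_mod_cast hm
  obtain ⟨hn0, hnd, hE⟩ := hn
  have key : ∃ k s : ℕ, (∀ i < k, r ((H d m r)^[i] n % d) < m * (H d m r)^[i] n) ∧
      (T d m r)^[t] n = (d : ℤ) ^ s * (H d m r)^[k] n ∧ ¬ (d : ℤ) ∣ (H d m r)^[k] n := by
    induction t with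
    | zero => exact ⟨0, 0, by simp, by simp, by simpa using hnd⟩
    | succ t ih =>
      obtain ⟨k, s, h1, h2, h3⟩ := ih
      have hge : n ≤ (H d m r)^[k] n := by
        rcases Nat.eq_zero_or_pos k with h0 | h0
        · subst h0; simp
        · exact hE k h0 h1
      rcases Nat.eq_zero_or_pos s with h0 | h0
      · subst h0
        set y := (H d m r)^[k] n with hy
        obtain ⟨g1, g2⟩ := mod_range hd h3
        have hpos : r (y % d) < m * y := by
          have := hρ _ g1 g2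
          nlinarith
        obtain ⟨k1, v, k2⟩ := H_spec hd hr h3 hpos
        refine ⟨k + 1, v, ?_, ?_, ?_⟩
        · intro i hi
          rcases Nat.lt_or_ge i k with h4 | h4
          · exact h1 i h4
          · have : i = k := by omega
            subst this
            exact hpos
        · rw [Function.iterate_succ_apply', h2, pow_zero, one_mul, Function.iterate_succ_apply',
            ← hy]
          have h5 : T d m r y = (m * y - r (y % d)) / d := by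
            unfold T
            rw [if_neg (by omega)]
          rw [h5, k2, pow_succ]
          have h6 : (d : ℤ) ^ v * d * H d m r y = d * ((d : ℤ) ^ v * H d m r y) := by ring
          rw [h6, Int.mul_ediv_cancel_left _ hd0.ne']
        · rw [Function.iterate_succ_apply', ← hy]; exact k1
      · obtain ⟨s', rfl⟩ : ∃ s', s = s' + 1 := ⟨s - 1, by omega⟩
        refine ⟨k, s', h1, ?_, h3⟩
        rw [Function.iterate_succ_apply', h2]
        have h6 : (d : ℤ) ^ (s' + 1) * (H d m r)^[k] n = d * ((d : ℤ) ^ s' * (H d m r)^[k] n) := by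
          ring
        unfold T
        rw [h6, if_pos (Int.mul_emod_right _ _), Int.mul_ediv_cancel_left _ hd0.ne']
  obtain ⟨k, s, h1, h2, _⟩ := key
  have hge : n ≤ (H d m r)^[k] n := by
    rcases Nat.eq_zero_or_pos k with h0 | h0
    · subst h0; simp
    · exact hE k h0 h1
  rw [h2]
  have h3 : (1 : ℤ) ≤ (d : ℤ) ^ s := one_le_pow₀ (by omega)
  nlinarith

/-- the map as a map of the general form -/
theorem T_eq (hd : 2 ≤ d) (r : ℤ → ℤ) :
    T d m r = Pool.Agent.H319R3.GC.Tm d (Pool.Agent.TH930.GH.mq m) (fun i => if i = 0 then 0 else r i) := by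
  funext n
  unfold T Pool.Agent.H319R3.GC.Tm
  have hn0 : 0 ≤ n % (d : ℤ) := Int.emod_nonneg _ (by omega)
  by_cases h : n % (d : ℤ) = 0
  · have h1 : (n % (d : ℤ)).toNat = 0 := by
      rw [h]; rfl
    rw [if_pos h, h1]
    simp [Pool.Agent.TH930.GH.mq]
  · have h1 : (n % (d : ℤ)).toNat ≠ 0 := by
      intro h2
      apply h
      omega
    have h2 : (((n % (d : ℤ)).toNat : ℕ) : ℤ) = n % d := Int.toNat_of_nonneg hn0
    rw [if_neg h]
    simp [Pool.Agent.TH930.GH.mq, h1, h2]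

theorem adm_r {d m : ℕ} {r : ℤ → ℤ} (hr : ∀ j : ℤ, 1 ≤ j → j < d → r j ≡ m * j [ZMOD d]) :
    ∀ i < d, (d : ℤ) ∣ Pool.Agent.TH930.GH.mq m i * i - (fun i : ℕ => if i = 0 then 0 else r i) i := by
  intro i hi
  simp only [Pool.Agent.TH930.GH.mq]
  split_ifs with h0
  · subst h0; simp
  · exact (hr i (by omega) (by exact_mod_cast hi)).dvd

/-- the condition on `m` -/
theorem pow_lt {d m : ℕ} (hd : 2 ≤ d) (hc : Nat.Coprime m d)
    (hle : (m : ℝ) ≤ (d : ℝ) ^ ((d : ℝ) / ((d : ℝ) - 1))) : m ^ (d - 1) < d ^ d := by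
  have h3 := Pool.Agent.H319R2.Moller.pow_le_of_rpow (d := d) (m := m) hd hle
  refine lt_of_le_of_ne h3 ?_
  intro h4
  have h5 : Nat.Coprime (m ^ (d - 1)) (d ^ d) := Nat.Coprime.pow _ _ hc
  rw [h4, Nat.coprime_self] at h5
  have : 1 < d ^ d := Nat.one_lt_pow (by omega) (by omega)
  omega

lemma finite_Ioc (u : ℤ) (X : ℝ) : {n : ℤ | u < n ∧ (n : ℝ) ≤ u + X}.Finite := by
  apply (Set.finite_Ioc u (u + ⌊X⌋)).subset
  rintro n ⟨h1, h2⟩
  refine ⟨h1, ?_⟩
  have h3 : ((n - u : ℤ) : ℝ) ≤ X := by push_cast; linarith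
  have := Int.le_floor.2 h3
  omega

lemma kappa_eq (d m : ℕ) : kappa d m = 1 - Pool.Agent.TH930.GH.hq d m := rfl

end

/-- **Stopping times beyond `log_d X`.** Let `gcd(m, d) = 1`, `d < m ≤ d ^ (d / (d - 1))`, `κ = 1 - h(d, m)`. Then
`0 < κ < 1`, and there are `a, τ₀ > 0`, depending only on `d` and `m`, such that for every admissible `R`:
(1) for `0 < τ ≤ τ₀` there is `C` such that for all `X ≥ 1` and all integers `u ≥ 0` at most
`C X ^ (1 - (1 + τ) κ + exp (-a / τ))` integers `u < n ≤ u + X` satisfy `T^j(n) ≥ n` for all `j ≤ (1 + τ) log_d X`, and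
at most so many integers `u < n ≤ u + X` are in the exceptional set `E(d, m, R)`;
(2) for all `τ ≥ 0`, `ε > 0` and all large `X` there are arbitrarily large integers `u` such that at least
`X ^ (1 - (1 + τ) κ - ε)` integers `u < n ≤ u + X` satisfy `T^j(n) ≥ n` for all `j ≤ (1 + τ) log_d X`. -/
theorem result (d m : ℕ) (hd : 2 ≤ d) (hm : d < m) (hc : Nat.Coprime m d)
    (hle : (m : ℝ) ≤ (d : ℝ) ^ ((d : ℝ) / ((d : ℝ) - 1))) :
    0 < kappa d m ∧ kappa d m < 1 ∧ ∃ a τ₀ : ℝ, 0 < a ∧ 0 < τ₀ ∧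
      ∀ r : ℤ → ℤ, (∀ j : ℤ, 1 ≤ j → j < d → r j ≡ m * j [ZMOD d]) →
        (∀ τ : ℝ, 0 < τ → τ ≤ τ₀ → ∃ C : ℝ, 0 < C ∧ ∀ X : ℝ, 1 ≤ X → ∀ u : ℤ, 0 ≤ u →
          ((Slow d m r τ X u).ncard : ℝ) ≤ C * X ^ (1 - (1 + τ) * kappa d m + Real.exp (-(a / τ))) ∧
          ({n : ℤ | n ∈ E d m r ∧ u < n ∧ (n : ℝ) ≤ u + X}.ncard : ℝ) ≤
            C * X ^ (1 - (1 + τ) * kappa d m + Real.exp (-(a / τ)))) ∧
        (∀ τ ε : ℝ, 0 ≤ τ → 0 < ε → ∃ X₀ : ℝ, ∀ X : ℝ, X₀ ≤ X → ∀ v : ℤ, ∃ u : ℤ, v ≤ u ∧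
          X ^ (1 - (1 + τ) * kappa d m - ε) ≤ ((Slow d m r τ X u).ncard : ℝ)) := by
  classical
  have hpl := pow_lt hd hc hle
  obtain ⟨hη0, hη1⟩ := Pool.Agent.TH930.GH.hq_lt hd hm hpl
  obtain ⟨a, τ0, ha, hτ0, hτ01, hup⟩ := Pool.Agent.T2h89.Mo.upper hd hm hc hpl
  rw [kappa_eq]
  set η : ℝ := Pool.Agent.TH930.GH.hq d m with hη
  refine ⟨by linarith, by linarith, a, min τ0 (η / 2), ha, by positivity, ?_⟩
  intro r hr
  have hr' : ∀ j : ℤ, 1 ≤ j → j < d → (d : ℤ) ∣ m * j - r j := fun j h1 h2 => (hr j h1 h2).dvd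
  have hadm := adm_r hr
  have hTe : T d m r = _ := T_eq (m := m) hd r
  constructor
  · intro τ hτp hτ
    have hτa : τ ≤ τ0 := hτ.trans (min_le_left _ _)
    have hτb : τ ≤ η / 2 := hτ.trans (min_le_right _ _)
    obtain ⟨C, hC, hb⟩ := hup _ hadm τ hτp hτa
    set θ : ℝ := 1 - (1 + τ) * (1 - η) + Real.exp (-(a / τ)) with hθ
    have hE0 : 0 < Real.exp (-(a / τ)) := Real.exp_pos _
    have hθ0 : 0 < θ := by
      have : τ * (1 - η) ≤ η / 2 * 1 := mul_le_mul hτb (by linarith) (by linarith) (by linarith)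
      rw [hθ]; nlinarith
    -- a bound for the offsets
    obtain ⟨ρ, hρ0, hρ⟩ : ∃ ρ : ℤ, 0 ≤ ρ ∧ ∀ j : ℤ, 1 ≤ j → j < d → r j ≤ ρ := by
      refine ⟨∑ j ∈ Icc (1 : ℤ) (d - 1), |r j|, sum_nonneg fun _ _ => abs_nonneg _, fun j h1 h2 => ?_⟩
      exact (le_abs_self _).trans (single_le_sum (f := fun j : ℤ => |r j|) (fun _ _ => abs_nonneg _)
        (mem_Icc.2 ⟨h1, by omega⟩))
    have hS : ∀ X : ℝ, 1 ≤ X → ∀ u : ℤ, 0 ≤ u → ((Slow d m r τ X u).ncard : ℝ) ≤ C * X ^ θ := by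
      intro X hX u hu
      have hfin : (Slow d m r τ X u).Finite :=
        (finite_Ioc u X).subset (fun n hn => ⟨hn.1, hn.2.1⟩)
      rw [Set.ncard_eq_toFinset_card _ hfin]
      apply hb X hX u
      intro n hn
      rw [Set.Finite.mem_toFinset] at hn
      obtain ⟨h1, h2, h3⟩ := hn
      refine ⟨by linarith, h1, h2, fun j hj => ?_⟩
      rw [← hTe]
      exact h3 j hj
    refine ⟨C + ρ, by have : (0 : ℝ) ≤ ρ := by exact_mod_cast hρ0
                      linarith, ?_⟩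
    intro X hX u hu
    have hρR : (0 : ℝ) ≤ ρ := by exact_mod_cast hρ0
    have hXθ : 1 ≤ X ^ θ := Real.one_le_rpow hX hθ0.le
    have h1 := hS X hX u hu
    refine ⟨h1.trans (mul_le_mul_of_nonneg_right (by linarith) (by linarith)), ?_⟩
    have hfin : (Slow d m r τ X u).Finite :=
      (finite_Ioc u X).subset (fun n hn => ⟨hn.1, hn.2.1⟩)
    have hfin2 : (Set.Ioc (0 : ℤ) ρ).Finite := Set.finite_Ioc _ _
    have hsub : {n : ℤ | n ∈ E d m r ∧ u < n ∧ (n : ℝ) ≤ u + X} ⊆ Slow d m r τ X u ∪ Set.Ioc (0 : ℤ) ρ := by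
      rintro n ⟨hn1, hn2, hn3⟩
      rcases lt_or_ge ρ n with h | h
      · left
        exact ⟨hn2, hn3, fun j _ => orbit_ge hd (by omega) hr' hρ hn1 h j⟩
      · right
        exact ⟨hn1.1, h⟩
    have h2 := Set.ncard_le_ncard hsub (hfin.union hfin2)
    have h3 := Set.ncard_union_le (Slow d m r τ X u) (Set.Ioc (0 : ℤ) ρ)
    have h4 : ((Set.Ioc (0 : ℤ) ρ).ncard : ℝ) = ρ := by
      rw [← Finset.coe_Ioc, Set.ncard_coe_finset, Int.card_Ioc, sub_zero]
      have : (((ρ.toNat : ℕ) : ℤ) : ℝ) = ρ := by rw [Int.toNat_of_nonneg hρ0]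
      exact_mod_cast this
    calc ({n : ℤ | n ∈ E d m r ∧ u < n ∧ (n : ℝ) ≤ u + X}.ncard : ℝ)
        ≤ ((Slow d m r τ X u ∪ Set.Ioc (0 : ℤ) ρ).ncard : ℝ) := by exact_mod_cast h2
      _ ≤ ((Slow d m r τ X u).ncard : ℝ) + ((Set.Ioc (0 : ℤ) ρ).ncard : ℝ) := by exact_mod_cast h3
      _ ≤ C * X ^ θ + ρ := by rw [h4]; linarith
      _ ≤ (C + ρ) * X ^ θ := by nlinarith
  · intro τ ε hτ hε
    obtain ⟨X₀, hX₀⟩ := Pool.Agent.T2h89.Mo.lower hd hm hc hpl hadm hτ hε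
    refine ⟨X₀, fun X hX v => ?_⟩
    obtain ⟨u, hu, B, hB, hcard⟩ := hX₀ X hX v
    refine ⟨u, hu, hcard.trans ?_⟩
    have hfin : (Slow d m r τ X u).Finite :=
      (finite_Ioc u X).subset (fun n hn => ⟨hn.1, hn.2.1⟩)
    rw [Set.ncard_eq_toFinset_card _ hfin]
    have hsub : B ⊆ hfin.toFinset := by
      intro n hn
      rw [Set.Finite.mem_toFinset]
      obtain ⟨-, h1, h2, h3⟩ := hB n hn
      refine ⟨h1, h2, fun j hj => ?_⟩
      rw [hTe]
      exact h3 j hj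
    exact_mod_cast card_le_card hsub

end Pool.Agent.Results.MP_fd8838_nt.StoppingTimesSharp
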