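import Pool.Agent.T2h89.LT8
import Pool.Agent.H319R2.GMoller2

set_option autoImplicit false

/-!
# Möller's maps: the trajectories are straight lines at all scales

Let `ρ = log d - ((d - 1) / d) log m > 0`. Heuristically `log |T^j(x)|` decreases by `ρ` per step on average. For all but
`C X y^(-c)` of the integers `|x| ≤ X` the trajectory of `x` is a straight line of slope `-ρ` on the logarithmic scale, at all
scales: between any two times `i ≤ j` before the trajectory enters `[-y, y]` the error is at most `ε log |T^i(x)|`, so it is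
small compared with the CURRENT height `log |T^i(x)|`, not only compared with `log |x|`. For all but `C X / (log y)^B` of them
the error is `O(√(L log L))`, `L = log |T^i(x)|`.

Proof: the `z` below `d^i` in absolute value whose multipliers deviate from the mean during the first `i` steps are few
(Hoeffding's inequality). If the first passages of `x` below all the `d^i` avoid these points, the straight pieces between
the levels `d^i` and `d^((1-δ)i)` fit together. The new point is the transfer lemma (`Pool.Agent.T2h89.LT.transfer`): for an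
ARBITRARY sparse set `B` of points below `d^i`, few `x` have their first passage below `d^i` in `B`. The set of these `x` is
not closed under the map, but it becomes closed if one adds the low excursions from `(-d^i, d^i)` and the `x` whose first
passage is a point of return of a high excursion (above `d^(2i)`) from `(-d^i, d^i)`; the high excursions are due to
deviations too, so the points of return are few. So the mixing theorem for forward closed sets of the starting files
(helper319, helper828) applies.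
-/

namespace Pool.Agent.Results.MP_fd8838_nt.StraightTrajectories

open Finset

/-- the map `T(n) = n / d` if `d ∣ n` and `(m n - r_j) / d` if `n ≡ j mod d`, `1 ≤ j < d`; the points of a
`T`-orbit that are not divisible by `d` form the `H`-orbit -/
def T (d m : ℕ) (r : ℕ → ℤ) (n : ℤ) : ℤ :=
  if (d : ℤ) ∣ n then n / d else (m * n - r (n % d).toNat) / d

/-- the mean descent per step, `ρ = log d - ((d - 1) / d) log m` -/
noncomputable def rho (d m : ℕ) : ℝ := Real.log d - ((d : ℝ) - 1) / d * Real.log m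

/-- The trajectory of `x` enters `[-y, y]`, and until then it is a straight line at all scales: for all times `i ≤ j`
such that `|T^l(x)| > y` for all `l ≤ j` the numbers `log |T^j(x)|` and `log |T^i(x)| - ρ (j - i)` differ by at most
`ψ (log |T^i(x)|)`. -/
def Straight (d m : ℕ) (r : ℕ → ℤ) (ψ : ℝ → ℝ) (y : ℝ) (x : ℤ) : Prop :=
  (∃ k : ℕ, |(((T d m r)^[k] x : ℤ) : ℝ)| ≤ y) ∧
  ∀ i j : ℕ, i ≤ j → (∀ l ≤ j, y < |(((T d m r)^[l] x : ℤ) : ℝ)|) →
    |(Real.log |(((T d m r)^[j] x : ℤ) : ℝ)| - (Real.log |(((T d m r)^[i] x : ℤ) : ℝ)| -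
      rho d m * ((j : ℝ) - i)))| ≤ ψ (Real.log |(((T d m r)^[i] x : ℤ) : ℝ)|)

/-- **Theorem.** Let `d, m ≥ 2` be coprime with `m ≤ d ^ (d / (d - 1))`. Then `ρ > 0`, and:
(1) for every `ε > 0` there is `c > 0`, depending only on `d`, `m` and `ε`, such that for every admissible `R` there is
`C` with: for all `X, y ≥ 1`, for all but at most `C X y^(-c)` of the integers `x` with `|x| ≤ X`, the trajectory of `x`
under `T` enters `[-y, y]`, and between any two times `i ≤ j` before it is a straight line of slope `-ρ` in the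
logarithmic scale up to an error `ε log |T^i(x)|`;
(2) for every `B` there is `A > 0`, depending only on `d`, `m` and `B`, such that for every admissible `R` there is `C`
with: for all `X ≥ 1` and `y ≥ 2`, for all but at most `C X / (log y)^B` of the integers `x` with `|x| ≤ X`, the same
holds with the error `A √(L log L)`, `L = log |T^i(x)|`. -/
theorem result (d m : ℕ) (hd : 2 ≤ d) (hm : 2 ≤ m) (hc : Nat.Coprime m d)
    (hle : (m : ℝ) ≤ (d : ℝ) ^ ((d : ℝ) / ((d : ℝ) - 1))) :
    0 < rho d m ∧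
    (∀ ε : ℝ, 0 < ε → ∃ c : ℝ, 0 < c ∧
      ∀ r : ℕ → ℤ, (∀ j : ℕ, 1 ≤ j → j < d → r j ≡ m * j [ZMOD d]) →
      ∃ C : ℝ, 0 < C ∧ ∀ X y : ℝ, 1 ≤ X → 1 ≤ y →
        (Set.ncard {x : ℤ | |(x : ℝ)| ≤ X ∧ ¬ Straight d m r (fun L => ε * L) y x} : ℝ) ≤ C * X * y ^ (-c)) ∧
    (∀ B : ℕ, ∃ A : ℝ, 0 < A ∧
      ∀ r : ℕ → ℤ, (∀ j : ℕ, 1 ≤ j → j < d → r j ≡ m * j [ZMOD d]) →
      ∃ C : ℝ, 0 < C ∧ ∀ X y : ℝ, 1 ≤ X → 2 ≤ y →
        (Set.ncard {x : ℤ | |(x : ℝ)| ≤ X ∧ ¬ Straight d m r (fun L => A * √(L * Real.log L)) y x} : ℝ) ≤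
          C * X / Real.log y ^ B) := by
  have hd0 : (0 : ℝ) < d := by exact_mod_cast (by omega : 0 < d)
  obtain ⟨s, η, hs, hη0, hη1, hsη⟩ := Pool.Agent.H319R2.Moller.exists_exps hd (by omega) hc hle
  set m' : ℕ → ℤ := fun i => if i = 0 then 1 else (m : ℤ) with hm'
  have hcop : ∀ i < d, IsCoprime (m' i) (d : ℤ) := by
    intro i _
    simp only [hm']
    split_ifs
    · exact isCoprime_one_left
    · exact Nat.isCoprime_iff_coprime.2 hc
  have hPP : Pool.Agent.H319R3.GC.PP d m' = m ^ (d - 1) := by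
    unfold Pool.Agent.H319R3.GC.PP
    obtain ⟨e, rfl⟩ : ∃ e, d = e + 1 := ⟨d - 1, by omega⟩
    rw [Finset.prod_range_succ']
    have h1 : ∀ i ∈ range e, (m' (i + 1)).natAbs = m := by
      intro i _
      simp [hm']
    rw [Finset.prod_congr rfl h1, Finset.prod_const, card_range]
    have h2 : (m' 0).natAbs = 1 := by simp [hm']
    rw [h2, mul_one, Nat.add_sub_cancel]
  have hprod : Pool.Agent.H319R3.GC.PP d m' < d ^ d ∧ 2 ≤ Pool.Agent.H319R3.GC.PP d m' := by
    rw [hPP]
    have h3 := Pool.Agent.H319R2.Moller.pow_le_of_rpow (d := d) (m := m) hd hle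
    constructor
    · refine lt_of_le_of_ne h3 ?_
      intro h4
      have h5 : Nat.Coprime (m ^ (d - 1)) (d ^ d) := Nat.Coprime.pow _ _ hc
      rw [h4, Nat.coprime_self] at h5
      have : 1 < d ^ d := Nat.one_lt_pow (by omega) (by omega)
      omega
    · calc 2 ≤ m := hm
        _ = m ^ 1 := (pow_one m).symm
        _ ≤ m ^ (d - 1) := Nat.pow_le_pow_right (by omega) (by omega)
  have hrho : rho d m = Pool.Agent.T2h89.LT.rho d m' := by
    unfold rho Pool.Agent.T2h89.LT.rho Pool.Agent.T2h89.LT.lam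
    rw [hPP]
    push_cast
    rw [Real.log_pow, Nat.cast_sub (by omega)]
    push_cast
    ring
  have hsum : ∑ j ∈ range d, (|(m' j : ℝ)| / d) ^ s ≤ (d : ℝ) ^ η := by
    obtain ⟨e, rfl⟩ : ∃ e, d = e + 1 := ⟨d - 1, by omega⟩
    rw [Finset.sum_range_succ']
    have h1 : ∀ i ∈ range e, (|(m' (i + 1) : ℝ)| / ((e + 1 : ℕ) : ℝ)) ^ s =
        (m : ℝ) ^ s / ((e + 1 : ℕ) : ℝ) ^ s := by
      intro i _
      have h2 : |(m' (i + 1) : ℝ)| = m := by simp [hm']
      rw [h2, Real.div_rpow (by positivity) (by positivity)]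
    rw [Finset.sum_congr rfl h1, Finset.sum_const, card_range, nsmul_eq_mul]
    have h2 : |(m' 0 : ℝ)| = 1 := by simp [hm']
    rw [h2, Real.div_rpow (by positivity) (by positivity), Real.one_rpow]
    have hds : (0 : ℝ) < ((e + 1 : ℕ) : ℝ) ^ s := Real.rpow_pos_of_pos hd0 _
    have h3 : ((e + 1 : ℕ) : ℝ) ^ (s + η) = ((e + 1 : ℕ) : ℝ) ^ s * ((e + 1 : ℕ) : ℝ) ^ η :=
      Real.rpow_add hd0 _ _
    rw [h3] at hsη
    have h4 : (e : ℝ) * ((m : ℝ) ^ s / ((e + 1 : ℕ) : ℝ) ^ s) + 1 / ((e + 1 : ℕ) : ℝ) ^ s =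
        (1 + (((e + 1 : ℕ) : ℝ) - 1) * (m : ℝ) ^ s) / ((e + 1 : ℕ) : ℝ) ^ s := by
      push_cast
      field_simp
      ring
    rw [h4, div_le_iff₀ hds, mul_comm (((e + 1 : ℕ) : ℝ) ^ η)]
    exact hsη.le
  -- the map as a map of the general form
  have hred : ∀ r : ℕ → ℤ, (∀ j : ℕ, 1 ≤ j → j < d → r j ≡ m * j [ZMOD d]) →
      ∃ r' : ℕ → ℤ, Pool.Agent.H319R3.GC.Adm d m' r' ∧
        ∀ (ψ : ℝ → ℝ) (y : ℝ) (x : ℤ), Straight d m r ψ y x ↔ Pool.Agent.T2h89.LT.Str d m' r' y ψ x := by
    intro r hr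
    set r' : ℕ → ℤ := fun i => if i = 0 then 0 else r i with hr'
    have hT : T d m r = Pool.Agent.H319R3.GC.Tm d m' r' := by
      funext n
      unfold T Pool.Agent.H319R3.GC.Tm
      have hn0 : 0 ≤ n % (d : ℤ) := Int.emod_nonneg _ (by omega)
      by_cases h : (d : ℤ) ∣ n
      · have h1 : (n % (d : ℤ)).toNat = 0 := by
          rw [Int.emod_eq_zero_of_dvd h]; rfl
        rw [if_pos h, h1]
        simp [hm', hr']
      · have h1 : (n % (d : ℤ)).toNat ≠ 0 := by
          intro h2
          apply h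
          apply Int.dvd_of_emod_eq_zero
          omega
        rw [if_neg h]
        simp [hm', hr', h1]
    have hadm : ∀ i < d, (d : ℤ) ∣ m' i * i - r' i := by
      intro i hi
      simp only [hm', hr']
      split_ifs with h0
      · subst h0; simp
      · exact (hr i (by omega) hi).dvd
    refine ⟨r', ⟨hd, hcop, hadm, hprod.1, hprod.2⟩, fun ψ y x => ?_⟩
    unfold Straight Pool.Agent.T2h89.LT.Str
    rw [hT, hrho]
    have e : ∀ a b c : ℝ, a - (b - c) = a - b + c := by intros; ring
    simp only [e]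
  -- an admissible choice
  obtain ⟨r₀', hadm₀, -⟩ := hred (fun j => m * j) (fun j _ _ => Int.ModEq.refl _)
  have hlogd : 0 < Real.log d := Real.log_pos (by exact_mod_cast (by omega : 1 < d))
  refine ⟨?_, ?_, ?_⟩
  · rw [hrho]; exact Pool.Agent.T2h89.LT.rho_pos hadm₀
  · intro ε hε
    refine ⟨Pool.Agent.T2h89.LT.c2 d m' η ε / Real.log d,
      div_pos (Pool.Agent.T2h89.LT.c2_pos hadm₀ hη1 hε) hlogd, ?_⟩
    intro r hr
    obtain ⟨r', hadm, hS⟩ := hred r hr
    obtain ⟨C, hC, h⟩ := Pool.Agent.T2h89.LT.law1 hadm hs (by linarith) hη1 hsum hε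
    refine ⟨C, hC, fun X y hX hy => ?_⟩
    simp only [hS]
    exact h X y hX hy
  · intro B
    refine ⟨Pool.Agent.T2h89.LT.AA d m' B, Pool.Agent.T2h89.LT.AA_pos hadm₀ B, ?_⟩
    intro r hr
    obtain ⟨r', hadm, hS⟩ := hred r hr
    obtain ⟨C, hC, h⟩ := Pool.Agent.T2h89.LT.law2 hadm hs (by linarith) hη1 hsum B
    refine ⟨C, hC, fun X y hX hy => ?_⟩
    simp only [hS]
    exact h X y hX hy

end Pool.Agent.Results.MP_fd8838_nt.StraightTrajectories
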